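import Pool.Agent.helper43.KG.Spec

/-! # Row kg:KHI -/

set_option autoImplicit false

namespace Pool.Agent.helper43.KG

open Finset

theorem KHI_step {ι : Type} [DecidableEq ι] {s : Finset ι} {j : ι} (hj : j ∉ s) (t : ι → ℝ)
    (G : ℝ → ℝ) :
    EE (insert j s) (fun _ => 0) (fun U => G (∑ i ∈ insert j s, t i * sg U i)) =
      1 / 2 * EE s (fun _ => 0) (fun U => G (t j + ∑ i ∈ s, t i * sg U i)) +
      1 / 2 * EE s (fun _ => 0) (fun U => G (-t j + ∑ i ∈ s, t i * sg U i)) := by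
  rw [EE_insert hj]
  have e1 : EE s (fun _ => 0) (fun U => G (∑ i ∈ insert j s, t i * sg (insert j U) i)) =
      EE s (fun _ => 0) (fun U => G (t j + ∑ i ∈ s, t i * sg U i)) := by
    refine EE_congr fun U hU => ?_
    rw [Finset.sum_insert hj, sg_insert_self, mul_one]
    congr 2
    refine Finset.sum_congr rfl fun i hi => ?_
    have : i ≠ j := fun h => hj (h ▸ hi)
    rw [sg_insert_ne U this]
  have e2 : EE s (fun _ => 0) (fun U => G (∑ i ∈ insert j s, t i * sg U i)) =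
      EE s (fun _ => 0) (fun U => G (-t j + ∑ i ∈ s, t i * sg U i)) := by
    refine EE_congr fun U hU => ?_
    rw [Finset.sum_insert hj, sg_notMem fun h => hj (hU h), mul_neg, mul_one]
  rw [e1, e2]
  ring

theorem KHI_sq {ι : Type} [DecidableEq ι] (s : Finset ι) (t : ι → ℝ) : ∀ a : ℝ,
    EE s (fun _ => 0) (fun U => (a + ∑ i ∈ s, t i * sg U i) ^ 2) = a ^ 2 + ∑ i ∈ s, t i ^ 2 := by
  induction s using Finset.induction_on with
  | empty => intro a; simp [EE_empty]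
  | insert j s hj ih =>
    intro a
    have h := KHI_step hj t (fun x => (a + x) ^ 2)
    rw [h]
    have e1 := ih (a + t j)
    have e2 := ih (a - t j)
    have f1 : EE s (fun _ => 0) (fun U => (a + (t j + ∑ i ∈ s, t i * sg U i)) ^ 2) =
        (a + t j) ^ 2 + ∑ i ∈ s, t i ^ 2 := by
      rw [← e1]
      exact EE_congr fun U _ => by ring
    have f2 : EE s (fun _ => 0) (fun U => (a + (-t j + ∑ i ∈ s, t i * sg U i)) ^ 2) =
        (a - t j) ^ 2 + ∑ i ∈ s, t i ^ 2 := by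
      rw [← e2]
      exact EE_congr fun U _ => by ring
    rw [f1, f2, Finset.sum_insert hj]
    ring

theorem KHI_four {ι : Type} [DecidableEq ι] (s : Finset ι) (t : ι → ℝ) : ∀ a : ℝ,
    EE s (fun _ => 0) (fun U => (a + ∑ i ∈ s, t i * sg U i) ^ 4) ≤
      a ^ 4 + 6 * a ^ 2 * (∑ i ∈ s, t i ^ 2) + 3 * (∑ i ∈ s, t i ^ 2) ^ 2 := by
  induction s using Finset.induction_on with
  | empty => intro a; simp [EE_empty]
  | insert j s hj ih =>
    intro a
    have h := KHI_step hj t (fun x => (a + x) ^ 4)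
    rw [h]
    have e1 := ih (a + t j)
    have e2 := ih (a - t j)
    have f1 : EE s (fun _ => 0) (fun U => (a + (t j + ∑ i ∈ s, t i * sg U i)) ^ 4) =
        EE s (fun _ => 0) (fun U => (a + t j + ∑ i ∈ s, t i * sg U i) ^ 4) :=
      EE_congr fun U _ => by ring
    have f2 : EE s (fun _ => 0) (fun U => (a + (-t j + ∑ i ∈ s, t i * sg U i)) ^ 4) =
        EE s (fun _ => 0) (fun U => (a - t j + ∑ i ∈ s, t i * sg U i) ^ 4) :=
      EE_congr fun U _ => by ring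
    rw [f1, f2, Finset.sum_insert hj]
    have hv : 0 ≤ ∑ i ∈ s, t i ^ 2 := Finset.sum_nonneg fun _ _ => sq_nonneg _
    nlinarith [sq_nonneg (t j ^ 2), sq_nonneg (t j)]

theorem KHI_pt (x l : ℝ) (hl : 0 < l) :
    Real.sqrt 3 / 2 * (x ^ 2 / l) - Real.sqrt 3 / 18 * (x ^ 4 / l ^ 3) ≤ |x| := by
  set y := |x| / l with hy
  have hy0 : 0 ≤ y := by positivity
  have h3 : Real.sqrt 3 ^ 2 = 3 := Real.sq_sqrt (by norm_num)
  have h30 : 0 < Real.sqrt 3 := Real.sqrt_pos.2 (by norm_num)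
  have hx : |x| = y * l := by rw [hy]; field_simp
  have hx2 : x ^ 2 = (y * l) ^ 2 := by rw [← hx, sq_abs]
  have hx4 : x ^ 4 = (y * l) ^ 4 := by
    calc x ^ 4 = (x ^ 2) ^ 2 := by ring
      _ = ((y * l) ^ 2) ^ 2 := by rw [hx2]
      _ = _ := by ring
  rw [hx2, hx4, hx]
  have e1 : (y * l) ^ 2 / l = y ^ 2 * l := by field_simp
  have e2 : (y * l) ^ 4 / l ^ 3 = y ^ 4 * l := by field_simp
  rw [e1, e2]
  have key : 0 ≤ Real.sqrt 3 / 18 * (y - Real.sqrt 3) ^ 2 * (y + 2 * Real.sqrt 3) := by positivity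
  have key2 : 1 - Real.sqrt 3 / 2 * y + Real.sqrt 3 / 18 * y ^ 3 =
      Real.sqrt 3 / 18 * (y - Real.sqrt 3) ^ 2 * (y + 2 * Real.sqrt 3) := by
    have h4 : Real.sqrt 3 ^ 4 = 9 := by
      calc Real.sqrt 3 ^ 4 = (Real.sqrt 3 ^ 2) ^ 2 := by ring
        _ = 9 := by rw [h3]; norm_num
    have h33 : Real.sqrt 3 ^ 3 = 3 * Real.sqrt 3 := by
      calc Real.sqrt 3 ^ 3 = Real.sqrt 3 ^ 2 * Real.sqrt 3 := by ring
        _ = 3 * Real.sqrt 3 := by rw [h3]
    have : Real.sqrt 3 / 18 * (y - Real.sqrt 3) ^ 2 * (y + 2 * Real.sqrt 3) =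
        Real.sqrt 3 / 18 * y ^ 3 - Real.sqrt 3 ^ 3 / 6 * y + Real.sqrt 3 ^ 4 / 9 := by ring
    rw [this, h4, h33]
    ring
  have hfin : 0 ≤ (y * l) * (1 - Real.sqrt 3 / 2 * y + Real.sqrt 3 / 18 * y ^ 3) := by
    rw [key2]
    positivity
  nlinarith

theorem t_khi : KHI := by
  intro ι _ s t p hp
  set v := ∑ j ∈ s, t j ^ 2 with hv
  have hv0 : 0 ≤ v := Finset.sum_nonneg fun _ _ => sq_nonneg _
  have hf : ∀ j ∈ s, |(fun _ : ι => (0 : ℝ)) j| ≤ 1 := fun j _ => by simp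
  rcases hv0.eq_or_lt with h0 | hpos
  · rw [← h0, zero_div, Real.zero_rpow (by positivity)]
    calc (0 : ℝ) = EE s (fun _ => 0) (fun _ => (0 : ℝ)) := (EE_const s _ 0).symm
      _ ≤ EE s (fun _ => 0) (fun U => |∑ j ∈ s, t j * sg U j| ^ p) :=
          EE_mono hf fun U _ => Real.rpow_nonneg (abs_nonneg _) p
  set l := Real.sqrt v with hl
  have hl0 : 0 < l := Real.sqrt_pos.2 hpos
  have hlv : l ^ 2 = v := Real.sq_sqrt hv0
  have h30 : 0 < Real.sqrt 3 := Real.sqrt_pos.2 (by norm_num)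
  have h3 : Real.sqrt 3 ^ 2 = 3 := Real.sq_sqrt (by norm_num)
  -- the first moment
  have hE1 : l / Real.sqrt 3 ≤ EE s (fun _ => 0) (fun U => |∑ j ∈ s, t j * sg U j|) := by
    have a1 : EE s (fun _ => 0) (fun U => Real.sqrt 3 / 2 * ((∑ j ∈ s, t j * sg U j) ^ 2 / l) -
        Real.sqrt 3 / 18 * ((∑ j ∈ s, t j * sg U j) ^ 4 / l ^ 3)) ≤
        EE s (fun _ => 0) (fun U => |∑ j ∈ s, t j * sg U j|) :=
      EE_mono hf fun U _ => KHI_pt _ l hl0
    refine le_trans ?_ a1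
    rw [EE_sub]
    have b1 : EE s (fun _ => 0) (fun U => Real.sqrt 3 / 2 * ((∑ j ∈ s, t j * sg U j) ^ 2 / l)) =
        Real.sqrt 3 / (2 * l) * v := by
      have c1 := KHI_sq s t 0
      have c2 : EE s (fun _ => 0) (fun U => Real.sqrt 3 / 2 * ((∑ j ∈ s, t j * sg U j) ^ 2 / l)) =
          Real.sqrt 3 / (2 * l) * EE s (fun _ => 0) (fun U => (0 + ∑ j ∈ s, t j * sg U j) ^ 2) := by
        rw [← EE_mul]
        refine EE_congr fun U _ => ?_
        field_simp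
        ring
      rw [c2, c1]
      ring
    have b2 : EE s (fun _ => 0) (fun U => Real.sqrt 3 / 18 * ((∑ j ∈ s, t j * sg U j) ^ 4 / l ^ 3)) ≤
        Real.sqrt 3 / (18 * l ^ 3) * (3 * v ^ 2) := by
      have c1 := KHI_four s t 0
      have c2 : EE s (fun _ => 0) (fun U => Real.sqrt 3 / 18 * ((∑ j ∈ s, t j * sg U j) ^ 4 / l ^ 3)) =
          Real.sqrt 3 / (18 * l ^ 3) *
            EE s (fun _ => 0) (fun U => (0 + ∑ j ∈ s, t j * sg U j) ^ 4) := by
        rw [← EE_mul]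
        refine EE_congr fun U _ => ?_
        field_simp
        ring
      rw [c2]
      refine mul_le_mul_of_nonneg_left ?_ (by positivity)
      calc EE s (fun _ => 0) (fun U => (0 + ∑ j ∈ s, t j * sg U j) ^ 4)
          ≤ 0 ^ 4 + 6 * 0 ^ 2 * (∑ i ∈ s, t i ^ 2) + 3 * (∑ i ∈ s, t i ^ 2) ^ 2 := c1
        _ = 3 * v ^ 2 := by rw [hv]; ring
    rw [b1]
    have e1 : Real.sqrt 3 / (2 * l) * v - Real.sqrt 3 / (18 * l ^ 3) * (3 * v ^ 2) = l / Real.sqrt 3 := by
      rw [← hlv]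
      have : Real.sqrt 3 / (2 * l) * l ^ 2 - Real.sqrt 3 / (18 * l ^ 3) * (3 * (l ^ 2) ^ 2) =
          Real.sqrt 3 * l / 3 := by
        field_simp
        ring
      rw [this, div_eq_div_iff (by norm_num) h30.ne']
      calc Real.sqrt 3 * l * Real.sqrt 3 = Real.sqrt 3 ^ 2 * l := by ring
        _ = l * 3 := by rw [h3]; ring
    linarith
  -- Jensen
  have hJ : (EE s (fun _ => 0) (fun U => |∑ j ∈ s, t j * sg U j|)) ^ p ≤
      EE s (fun _ => 0) (fun U => |∑ j ∈ s, t j * sg U j| ^ p) := by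
    have h1 := EE_const s (fun _ => 0) 1
    unfold EE at h1 ⊢
    simp only [mul_one] at h1
    exact Real.rpow_arith_mean_le_arith_mean_rpow s.powerset _ _
      (fun U hU => wt_nonneg hf (mem_powerset.1 hU)) h1 (fun U _ => abs_nonneg _) hp
  refine le_trans ?_ hJ
  have e2 : (v / 3) ^ (p / 2) = (l / Real.sqrt 3) ^ p := by
    have : v / 3 = (l / Real.sqrt 3) ^ (2 : ℝ) := by
      rw [Real.rpow_two, div_pow, hlv, h3]
    rw [this, ← Real.rpow_mul (by positivity)]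
    congr 1
    ring
  rw [e2]
  exact Real.rpow_le_rpow (by positivity) hE1 (by linarith)

end Pool.Agent.helper43.KG
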