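import Pool.Agent.helper43.KG.Spec

/-! # Row kg:TRS -/

set_option autoImplicit false

namespace Pool.Agent.helper43.KG

open Finset

theorem TRS_sum {ι : Type} [DecidableEq ι] (t : Finset ι) (θ : ι → ℝ) (i : ι) (hi : i ∉ t) (U : Finset ι)
    (hU : U ⊆ t) :
    (∑ j ∈ insert i t, θ j * sg (insert i U) j = θ i + ∑ j ∈ t, θ j * sg U j) ∧
    (∑ j ∈ insert i t, θ j * sg U j = -θ i + ∑ j ∈ t, θ j * sg U j) := by
  have hiU : i ∉ U := fun h => hi (hU h)
  rw [Finset.sum_insert hi, Finset.sum_insert hi, sg_insert_self, sg_notMem hiU]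
  constructor
  · rw [mul_one]
    congr 1
    refine Finset.sum_congr rfl fun j hj => ?_
    have : j ≠ i := fun h => hi (h ▸ hj)
    rw [sg_insert_ne U this]
  · rw [mul_neg, mul_one]

theorem t_trs (h : TRI) : TRS := by
  intro ι _ s θ i hi
  obtain ⟨t, hit, rfl⟩ : ∃ t, i ∉ t ∧ s = insert i t := ⟨s.erase i, by simp, by simp [hi]⟩
  rw [EE_insert hit, Finset.erase_insert hit]
  have e1 : EE t (fun _ => 0) (fun U => sg (insert i U) i *
      Real.sin (∑ j ∈ insert i t, θ j * sg (insert i U) j)) =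
      Real.sin (θ i) * ∏ j ∈ t, Real.cos (θ j) := by
    rw [← (h ι t θ (θ i)).2]
    refine EE_congr fun U hU => ?_
    rw [sg_insert_self, one_mul, (TRS_sum t θ i hit U hU).1]
  have e2 : EE t (fun _ => 0) (fun U => sg U i * Real.sin (∑ j ∈ insert i t, θ j * sg U j)) =
      Real.sin (θ i) * ∏ j ∈ t, Real.cos (θ j) := by
    have h1 := (h ι t θ (-θ i)).2
    rw [Real.sin_neg, neg_mul] at h1
    have h2 : EE t (fun _ => 0) (fun U => (-1) * Real.sin (-θ i + ∑ j ∈ t, θ j * sg U j)) =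
        Real.sin (θ i) * ∏ j ∈ t, Real.cos (θ j) := by
      rw [EE_mul, h1]
      ring
    rw [← h2]
    refine EE_congr fun U hU => ?_
    rw [sg_notMem fun hiU => hit (hU hiU), (TRS_sum t θ i hit U hU).2]
  rw [e1, e2]
  ring

end Pool.Agent.helper43.KG
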